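import Pool.Agent.Helper25.FN.Spec

set_option autoImplicit false

/-!
# FN, part WD: rules for the Wirtinger derivative
-/

namespace Pool.Agent.Helper82.FN.WD

open Pool.Agent.Helper25.FN
open scoped ContDiff
open Pool.Agent.Helper25.FB.Inj (Entire)

theorem dir_aux {n : ℕ} (f : V n → ℂ) (hf : Differentiable ℂ f) (v : V n)
    (T : (Fin (n + 1) → ℂ) →L[ℂ] V n) (hT : ∀ w, T w = Fin.tail w + w 0 • v) (z : V n) :
    fderiv ℂ f z v = iteratedDeriv 1 (fun s : ℂ => f (T (Fin.cons s z : Fin (n + 1) → ℂ))) 0 := by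
  rw [iteratedDeriv_one]
  have h2 : (fun s : ℂ => f (T (Fin.cons s z))) = fun s : ℂ => f (z + s • v) := by
    funext s
    rw [hT, Fin.tail_cons, Fin.cons_zero]
  rw [h2]
  have h3 : HasDerivAt (fun s : ℂ => z + s • v) v 0 := by
    have := ((hasDerivAt_id (0 : ℂ)).smul_const v).const_add z
    simpa using this
  have h4 : HasFDerivAt f (fderiv ℂ f z) (z + (0 : ℂ) • v) := by
    rw [zero_smul, add_zero]
    exact (hf z).hasFDerivAt
  exact (h4.comp_hasDerivAt 0 h3).deriv.symm

theorem dir_entire {n : ℕ} (f : V n → ℂ) (hf : Differentiable ℂ f) (v : V n) :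
    Differentiable ℂ (fun z => fderiv ℂ f z v) := by
  let T : (Fin (n + 1) → ℂ) →L[ℂ] V n := LinearMap.toContinuousLinearMap
    { toFun := fun w => Fin.tail w + w 0 • v
      map_add' := fun a b => by
        funext i
        simp [Fin.tail]
        ring
      map_smul' := fun c a => by
        funext i
        simp [Fin.tail]
        ring }
  have hT : ∀ w, T w = Fin.tail w + w 0 • v := fun w => rfl
  have h1 := Pool.Agent.Helper25.FB.Inj.coef_diff (fun w => f (T w)) (hf.comp T.differentiable) 1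
  have hfun : (fun z => fderiv ℂ f z v) = fun z : Fin n → ℂ =>
      iteratedDeriv 1 (fun s : ℂ => f (T (Fin.cons s z : Fin (n + 1) → ℂ))) 0 := by
    funext z
    exact dir_aux f hf v T hT z
  rw [hfun]
  exact h1

theorem entire_contDiff_nat (n k : ℕ) : ∀ f : V n → ℂ, Differentiable ℂ f → ContDiff ℂ k f := by
  induction k with
  | zero => exact fun f hf => contDiff_zero.mpr hf.continuous
  | succ k ih =>
    intro f hf
    have : ((k + 1 : ℕ) : WithTop ℕ∞) = (k : WithTop ℕ∞) + 1 := by push_cast; rfl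
    rw [this, contDiff_succ_iff_fderiv]
    refine ⟨hf, by simp, ?_⟩
    rw [contDiff_clm_apply_iff]
    exact fun v => ih _ (dir_entire f hf v)

theorem entire_contDiff {n : ℕ} (f : V n → ℂ) (hf : Differentiable ℂ f) : ContDiff ℝ ∞ f := by
  rw [contDiff_infty]
  exact fun k => (entire_contDiff_nat n k f hf).restrict_scalars ℝ

theorem wd_entire {n : ℕ} (j : Fin n) (f : V n → ℂ) (hf : Differentiable ℂ f) (z : V n) :
    wd j f z = fderiv ℂ f z (Pi.single j 1) := by
  unfold wd
  have h1 : fderiv ℝ f z = (fderiv ℂ f z).restrictScalars ℝ := (hf z).fderiv_restrictScalars ℝ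
  rw [h1]
  simp only [ContinuousLinearMap.coe_restrictScalars']
  have h2 : (Pi.single j Complex.I : V n) = Complex.I • (Pi.single j 1 : V n) := by
    rw [← Pi.single_smul]
    simp
  rw [h2, map_smul, smul_eq_mul, ← mul_assoc, Complex.I_mul_I]
  ring

/-- the part WD -/
theorem main : S_WD := by
  intro n j
  refine ⟨fun f g hf hg z => ⟨?_, ?_⟩, fun c f hf z => ?_, fun f hf => ?_, fun Φ hΦ => ⟨?_, fun z => ?_⟩,
    fun f hf => ⟨entire_contDiff f hf, ?_, wd_entire j f hf, fun z => ?_⟩⟩
  · unfold wd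
    have h : HasFDerivAt (fun y => f y + g y) (fderiv ℝ f z + fderiv ℝ g z) z :=
      (hf z).hasFDerivAt.add (hg z).hasFDerivAt
    rw [h.fderiv]
    simp only [ContinuousLinearMap.add_apply]
    ring
  · unfold wd
    have h : HasFDerivAt (fun y => f y * g y) (f z • fderiv ℝ g z + g z • fderiv ℝ f z) z :=
      (hf z).hasFDerivAt.mul (hg z).hasFDerivAt
    rw [h.fderiv]
    simp only [ContinuousLinearMap.add_apply, ContinuousLinearMap.smul_apply, smul_eq_mul]
    ring
  · unfold wd
    rw [((hf z).hasFDerivAt.const_mul c).fderiv]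
    simp only [ContinuousLinearMap.smul_apply, smul_eq_mul]
    ring
  · unfold wd
    have h1 : ContDiff ℝ ∞ (fderiv ℝ f) := hf.fderiv_right (by simp)
    exact ((h1.clm_apply contDiff_const).sub (contDiff_const.mul (h1.clm_apply contDiff_const))).div_const 2
  · unfold wc wt
    exact Complex.ofRealCLM.contDiff.comp (Real.contDiff_exp.comp (contDiff_const.mul hΦ))
  · have hd : DifferentiableAt ℝ Φ z := (hΦ.differentiable (by simp)) z
    have h1 : HasFDerivAt (fun y => (Φ y : ℂ)) (Complex.ofRealCLM.comp (fderiv ℝ Φ z)) z :=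
      Complex.ofRealCLM.hasFDerivAt.comp z hd.hasFDerivAt
    have h2 : HasFDerivAt (wc Φ) (Complex.ofRealCLM.comp (Real.exp (-2 * Φ z) • ((-2 : ℝ) • fderiv ℝ Φ z))) z :=
      Complex.ofRealCLM.hasFDerivAt.comp z ((hd.hasFDerivAt.const_mul (-2 : ℝ)).exp)
    unfold gr wd
    rw [h1.fderiv, h2.fderiv]
    simp only [ContinuousLinearMap.comp_apply, ContinuousLinearMap.smul_apply, smul_eq_mul,
      Complex.ofRealCLM_apply]
    unfold wc wt
    push_cast
    ring
  · have h1 : wd j f = fun z => fderiv ℂ f z (Pi.single j 1) := funext fun z => wd_entire j f hf z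
    rw [h1]
    exact dir_entire f hf _
  · unfold wd
    have h1 : HasFDerivAt f ((fderiv ℂ f z).restrictScalars ℝ) z :=
      (hf z).hasFDerivAt.restrictScalars ℝ
    have h2 : HasFDerivAt (fun y => starRingEnd ℂ (f y))
        ((Complex.conjCLE : ℂ →L[ℝ] ℂ).comp ((fderiv ℂ f z).restrictScalars ℝ)) z :=
      (Complex.conjCLE : ℂ →L[ℝ] ℂ).hasFDerivAt.comp z h1
    rw [h2.fderiv]
    have h3 : (Pi.single j Complex.I : V n) = Complex.I • (Pi.single j 1 : V n) := by
      rw [← Pi.single_smul]
      simp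
    simp only [ContinuousLinearMap.comp_apply, ContinuousLinearMap.coe_restrictScalars']
    rw [h3, map_smul]
    simp only [smul_eq_mul, ContinuousLinearEquiv.coe_coe, Complex.conjCLE_apply, map_mul, Complex.conj_I]
    rw [show Complex.I * (-Complex.I * (starRingEnd ℂ) ((fderiv ℂ f z) (Pi.single j 1))) =
      -(Complex.I * Complex.I) * (starRingEnd ℂ) ((fderiv ℂ f z) (Pi.single j 1)) by ring,
      Complex.I_mul_I]
    ring

end Pool.Agent.Helper82.FN.WD
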